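import Pool.Agent.N587.FX.Vc

set_option autoImplicit false

/-!
# Weighted vertex cover: reductions of constant depth and subquadratic formulas

To prove that no polynomial-time algorithm approximates weighted vertex cover within a constant
factor less than two unless `P = NP`, one has to reduce an NP-hard problem to the problem to
distinguish graphs with a vertex cover of weight at most `α W` from those all of whose vertex covers
have at least the weight `β W`, where `W` is the total weight of the vertices and `β / α` is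
arbitrarily close to two. Here it is shown that for all `α < β` such reductions cannot be simple, if
the graphs are sparse.

A graph (`VGraph U ρ m` in `Pool/Agent/N587/FX/Vc.lean`) has `m` edges and rational weights, and the
lighter end of an edge has at most the `ρ / m`-th part of the total weight; for graphs without weights
this means that the average degree is at most `2 ρ`. It is encoded by a word of `m` symbols of `l`
bits, one for each edge; a symbol encodes, through any map `dec`, the edge, the weights of its ends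
and the total weight.

1. A Turing reduction from parity to this promise problem of constant depth `h` (circuits with AND
and OR gates of unbounded fan-in, NOT gates and any number of adaptive oracle gates with queries of
any length, `Pool/Agent/N587/OT/Defs.lean`) has more than `2 ^ (n ^ (1 / (3 h + 2)))` gates.
2. If a circuit of this kind with `2 ^ (n ^ o(1))` gates is followed by one more query whose bits are
computed by formulas (of fan-in two) over its nodes, and this query is a yes-instance or a
no-instance according to the parity, then some formula has `n ^ (2 - o(1))` leaves.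
3. If all bits of the graph are unate functions of the input (of any complexity), then there is no
such reduction at all, unless `l ≥ (β - α) / ρ * √n`.

The ideas of the proofs are explained in `AC0TuringReductions.lean` and `SubquadraticFormulas.lean`
for MP_ec946a_lc. Here the gap is: a yes-instance and a no-instance differ in at least
`(β - α) / ρ * m` symbols, since a vertex cover of the first graph, together with the lighter ends of
the changed edges, covers the second one.
-/

namespace Pool.Agent.Results.MP_cff830_lc.ConstantDepthReductions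

open Finset Pool.Agent.N587.OT Pool.Agent.N587.UG Pool.Agent.N587.FX

/-- Let `0 ≤ α < β`, `0 < ρ`, `β - α ≤ ρ` (if `β - α > ρ` then there are no no-instances),
`γ = (β - α) / ρ`, and let `Y` and `Z` be sets of words such that every word in `Y` encodes a graph
with a vertex cover of weight at most `α W` and every word in `Z` a graph all of whose vertex covers
have weight at least `β W`. (`VYes`, `VNo`). Let `C` be a circuit with `n` inputs, `s` gates and
depth at most `h` whose queries are words of symbols of `l ≥ 1` bits.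
(1) Suppose that `C` computes the parity of its input from all oracles which accept the words in `Y`
and reject the words in `Z`. If `s ≤ 2 ^ u`, `l ≤ γ 2 ^ u` and `u ≥ 1`, then
`n γ ^ h ≤ (2 ^ 60 l u ^ 3) ^ h * 3 u`.
(2) For every `h` there are `e ≥ 1` and `N₀` such that for the circuits in (1)
`s > 2 ^ (n ^ (1 / (3 h + 2)))` if `n ≥ N₀`, `l ^ e ≤ n` and `γ ^ e n ≥ 1`.
(3) For every `h` and `ε > 0` there are `η > 0` and `N₀` such that the following holds if `n ≥ N₀`,
`s ≤ 2 ^ (n ^ η)`, `l ≤ n ^ η` and `γ ≥ n ^ (-η)`. Let `W` be formulas with at most `L` leaves over the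
nodes of `C`, one for every bit of a word of `m` symbols, such that for all oracles which accept the
words in `Y` and reject the words in `Z` the word computed by `C` and `W` is in `Y` for the inputs of
even parity and in `Z` for the inputs of odd parity. Then `L > n ^ (2 - ε)`.
(4) If `w` maps the inputs of even parity to yes-instances and the inputs of odd parity to
no-instances such that all bits of `w` are unate functions of the input, then `γ ^ 2 n ≤ l ^ 2`. -/
theorem result :
    (∀ (n s l h u : ℕ) (U : Type) [Fintype U] (C : OCircuit n s l h)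
      (dec : (Fin l → Bool) → Option (VSym U)) (α β ρ : ℝ)
      (Y Z : (m : ℕ) → (Fin m → Fin l → Bool) → Prop), 1 ≤ l → 0 ≤ α → α < β → 0 < ρ →
      β - α ≤ ρ → (∀ m a, Y m a → VYes dec ρ α m a) → (∀ m a, Z m a → VNo dec ρ β m a) →
      C.Parity Y Z → 1 ≤ u → s ≤ 2 ^ u → (l : ℝ) ≤ (β - α) / ρ * 2 ^ u →
      n * ((β - α) / ρ) ^ h ≤ (2 ^ 60 * (l * u ^ 3)) ^ h * (3 * u)) ∧
    (∀ h : ℕ, ∃ e N₀ : ℕ, 1 ≤ e ∧ ∀ (n s l : ℕ) (U : Type) [Fintype U] (C : OCircuit n s l h)
      (dec : (Fin l → Bool) → Option (VSym U)) (α β ρ : ℝ)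
      (Y Z : (m : ℕ) → (Fin m → Fin l → Bool) → Prop), 1 ≤ l → 0 ≤ α → α < β → 0 < ρ →
      β - α ≤ ρ → (∀ m a, Y m a → VYes dec ρ α m a) → (∀ m a, Z m a → VNo dec ρ β m a) →
      C.Parity Y Z → N₀ ≤ n → l ^ e ≤ n → 1 ≤ ((β - α) / ρ) ^ e * n →
      (2 : ℝ) ^ ((n : ℝ) ^ (1 / (3 * h + 2 : ℝ))) < s) ∧
    (∀ (h : ℕ) (ε : ℝ), 0 < ε → ∃ η : ℝ, 0 < η ∧ ∃ N₀ : ℕ,
      ∀ (n s l m L : ℕ) (U : Type) [Fintype U] (C : OCircuit n s l h)
      (W : Fin m → Fin l → Formula (Node n s)) (dec : (Fin l → Bool) → Option (VSym U))
      (α β ρ : ℝ) (Y Z : (m : ℕ) → (Fin m → Fin l → Bool) → Prop), 1 ≤ l → 0 ≤ α → α < β →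
      0 < ρ → β - α ≤ ρ → (∀ m a, Y m a → VYes dec ρ α m a) → (∀ m a, Z m a → VNo dec ρ β m a) →
      (∀ i c, (W i c).leaves ≤ L) → Reduces C W Y Z →
      N₀ ≤ n → (s : ℝ) ≤ 2 ^ ((n : ℝ) ^ η) → (l : ℝ) ≤ (n : ℝ) ^ η →
      1 ≤ ((β - α) / ρ) * (n : ℝ) ^ η → (n : ℝ) ^ (2 - ε) < L) ∧
    ∀ (n l m : ℕ) (U : Type) [Fintype U] (dec : (Fin l → Bool) → Option (VSym U)) (α β ρ : ℝ)
      (w : (Fin n → Bool) → Fin m → Fin l → Bool), 1 ≤ n → 0 ≤ α → α < β → 0 < ρ → β - α ≤ ρ →
      (∀ i c, Unate fun x => w x i c) →
      (∀ x, ¬ Odd (univ.filter fun i => x i = true).card → VYes dec ρ α m (w x)) →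
      (∀ x, Odd (univ.filter fun i => x i = true).card → VNo dec ρ β m (w x)) →
      ((β - α) / ρ) ^ 2 * n ≤ (l : ℝ) ^ 2 := by
  refine ⟨?_, ?_, ?_, ?_⟩
  · intro n s l h u U _ C dec α β ρ Y Z hl hα hαβ hρ hρ2 hY hZ hpar hu hs hlu
    exact Pool.Agent.N587.OX.parity_bound (C := C) hu hs hl (div_pos (by linarith) hρ)
      (by rw [div_le_one hρ]; exact hρ2) hlu
      (fun m a b ha hb => vgap dec hρ hρ2 (hY m a ha) (hZ m b hb))
      (fun m a ha => (hY m a ha).1) hpar
  · intro h
    obtain ⟨e, N₀, he, hN⟩ := Pool.Agent.N587.OX.asym h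
    refine ⟨e, N₀, he, ?_⟩
    intro n s l U _ C dec α β ρ Y Z hl hα hαβ hρ hρ2 hY hZ hpar hn hle hγ
    by_contra hcon
    push Not at hcon
    exact hN C (γ := (β - α) / ρ) hn hcon hl hle (div_pos (by linarith) hρ)
      (by rw [div_le_one hρ]; exact hρ2) hγ
      (fun m a b ha hb => vgap dec hρ hρ2 (hY m a ha) (hZ m b hb))
      (fun m a ha => (hY m a ha).1) hpar
  · intro h ε hε
    obtain ⟨η, hη, N₀, hN⟩ := Pool.Agent.N587.FX.asym h hε
    refine ⟨η, hη, N₀, ?_⟩
    intro n s l m L U _ C W dec α β ρ Y Z hl hα hαβ hρ hρ2 hY hZ hL hred hn hs hlη hγ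
    exact hN C W (γ := (β - α) / ρ) hn hs hl hlη (by rw [div_le_one hρ]; exact hρ2) hγ
      (fun m a b ha hb => vgap dec hρ hρ2 (hY m a ha) (hZ m b hb))
      (fun m a ha => (hY m a ha).1) hL hred
  · intro n l m U _ dec α β ρ w hn hα hαβ hρ hρ2 hw hyes hno
    exact unate_bound (Y := VYes dec ρ α) (Z := VNo dec ρ β) w hw (by omega)
      (div_pos (by linarith) hρ) (fun m a b ha hb => vgap dec hρ hρ2 ha hb)
      (fun m a ha => ha.1) hyes hno

end Pool.Agent.Results.MP_cff830_lc.ConstantDepthReductions
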