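import Pool.Agent.N631.FV.Final

/-!
# Vertex cover within a factor below 2: circuits with `n ^ α` NOT gates and programs with few tests

The starting result `BelowTwo` shows that randomised circuits of arbitrary nondecreasing real gates
and a few further gates (about `α log n` NOT gates, `α < 1/2`) need exponential size to approximate
the vertex cover number within a factor `c < 2`. Here:

* the circuits may contain `n ^ α` NOT gates, if no path contains two of them. In general they
  contain layers of non-monotone gates: a layer with `w` wires consists of arbitrarily many gates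
  that compute arbitrary real functions of the results of `w` comparisons of values of earlier gates
  with constants, and we need that `κ`, the product of the numbers `w + 1` over the layers, is at
  most `n ^ α / 2`;
* more generally we consider programs that compute nondecreasing functions of known values and
  branch on the results of comparisons, adaptively; see `TProg` for the width, which is the number
  of leaves if the comparisons are made one after the other;
* the lower bound holds for the decision version: to tell the graphs with `2 n` vertices, with a fixed
  perfect matching, in which every vertex cover has at least `(2 - η) n` vertices from those with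
  a vertex cover with at most `(1 + η) n` vertices;
* the same on all graphs for large factors `ρ`, if `ρ` times the width is at most `n ^ (1/2 - η)`.

Proof: let `T` be a random growing set of vertices. The NO instances are all pairs that touch `T`,
and the YES instances have in addition the cliques on the colour classes of a random colouring. For
each program and each fixed `T` there is a circuit of nondecreasing real gates, with as many gates
as the program has steps, that tells for the graphs that contain the graph of `T` whether they lead
to another leaf (class of leaves) than the graph of `T`. By the approximation method this circuit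
answers yes on almost all graphs for larger sets `T ∪ T'` or no on almost all YES instances. The
first case is rare since the number of the class of leaves grows with the instance and is smaller
than the width, and in the second case the program gives the same answer on `T` and on most of the
YES instances.
-/

open scoped Classical
open Finset

namespace Pool.Agent.Results.MP_cff830_lc.FewNegationsGap

open H630VC Pool.Agent.N631.FT

/-- A randomised program, that is a finite nonempty family `F` of programs, tells for unit weights
the graphs of `𝓖` all of whose vertex covers have at least `a` vertices (answer `true`) from those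
with a vertex cover with at most `b` vertices (answer `false`), in both cases for at least three
quarters of the programs. -/
def Tells {V R : Type} [Fintype R] (𝓖 : Set (SimpleGraph V)) (a b : ℝ)
    (F : R → WGraph V → Bool) : Prop :=
  ∀ G ∈ 𝓖, ((∀ C : Finset V, IsCover G C → a ≤ (C.card : ℝ)) →
      3 * Fintype.card R ≤ 4 * (univ.filter fun r => F r (unit G) = true).card) ∧
    ((∃ C : Finset V, IsCover G C ∧ (C.card : ℝ) ≤ b) →
      3 * Fintype.card R ≤ 4 * (univ.filter fun r => F r (unit G) = false).card)

/-- (1) Let `η > 0`, `0 ≤ α < 1/2` and `n` large. Each randomised program of width at most `n ^ α`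
that, on the graphs with `2 n` vertices that contain a fixed perfect matching, tells those all of
whose vertex covers have at least `(2 - η) n` vertices from those with a vertex cover with at most
`(1 + η) n` vertices has running time at least `2 ^ (n ^ ((1 - 2 α) / 7))`. (2) Let `c < 2`,
`0 ≤ α < 1/2` and `n` large. Each randomised circuit of nondecreasing real gates and layers of
arbitrary gates with `2 κ ≤ n ^ α` that on these graphs computes a number between the size of a
least vertex cover and `c` times this size (or prints a vertex cover whose size is at most `c` times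
the least size), with probability at least `3/4`, has at least `2 ^ (n ^ ((1 - 2 α) / 7))` gates.
(3) Let `0 < η ≤ 1/2`, `n` large and `ρ ≥ 1`. Each randomised program of width `m`,
`ρ m ≤ n ^ (1/2 - η)`, that tells the graphs with `n` vertices all of whose vertex covers have at
least `(1 - η) n` vertices from those with a vertex cover with at most `η n / ρ` vertices has
running time at least `2 ^ (n ^ (η / 4))`. -/
theorem result :
    (∀ η : ℝ, 0 < η → ∀ α : ℝ, 0 ≤ α → α < 1 / 2 → ∃ N : ℕ, ∀ n : ℕ, N ≤ n →
      ∀ (R : Type) [Fintype R] [Nonempty R] (S m : R → ℕ) (F : R → WGraph (Fin n ⊕ Fin n) → Bool),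
      (∀ r, TProg (wInputs (Fin n ⊕ Fin n)) [] (S r) (m r) (F r)) →
      (∀ r, (m r : ℝ) ≤ (n : ℝ) ^ α) →
      Tells (pmGraphs n) ((2 - η) * n) ((1 + η) * n) F →
      ∃ r, (2 : ℝ) ^ ((n : ℝ) ^ ((1 - 2 * α) / 7)) ≤ S r) ∧
    (∀ c : ℝ, c < 2 → ∀ α : ℝ, 0 ≤ α → α < 1 / 2 → ∃ N : ℕ, ∀ n : ℕ, N ≤ n →
      ∀ (R : Type) [Fintype R] [Nonempty R] (l : R → List (WGraph (Fin n ⊕ Fin n) → ℝ))
        (κ : R → ℕ),
      (∀ r, NProg (wInputs (Fin n ⊕ Fin n)) (l r) (κ r)) → (∀ r, 2 * (κ r : ℝ) ≤ (n : ℝ) ^ α) →
      RSolves c l (unit '' pmGraphs n) →
      ∃ r, (2 : ℝ) ^ ((n : ℝ) ^ ((1 - 2 * α) / 7)) ≤ (l r).length) ∧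
    (∀ η : ℝ, 0 < η → η ≤ 1 / 2 → ∃ N : ℕ, ∀ n : ℕ, N ≤ n → ∀ ρ : ℝ, 1 ≤ ρ →
      ∀ (R : Type) [Fintype R] [Nonempty R] (S m : R → ℕ) (F : R → WGraph (Fin n) → Bool),
      (∀ r, TProg (wInputs (Fin n)) [] (S r) (m r) (F r)) →
      (∀ r, ρ * m r ≤ (n : ℝ) ^ (1 / 2 - η)) →
      Tells Set.univ ((1 - η) * n) (η * n / ρ) F →
      ∃ r, (2 : ℝ) ^ ((n : ℝ) ^ (η / 4)) ≤ S r) := by
  refine ⟨?_, fun c hc α h0 h1 => Pool.Agent.N631.FV.circuits c hc α h0 h1, ?_⟩
  · intro η hη α h0 h1
    obtain ⟨N, hN⟩ := Pool.Agent.N631.FV.programs η hη α h0 h1
    refine ⟨N, fun n hn R _ _ S m F hp hm hT => ?_⟩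
    exact hN n hn R S m F hp hm (fun G hG => (hT G hG).1) (fun G hG => (hT G hG).2)
  · intro η hη hη2
    obtain ⟨N, hN⟩ := Pool.Agent.N631.FV.programs_all η hη hη2
    refine ⟨N, fun n hn ρ hρ R _ _ S m F hp hm hT => ?_⟩
    have hρ0 : 0 < ρ := by linarith
    refine hN n hn ρ hρ R S m F hp hm (fun G => (hT G (Set.mem_univ _)).1) (fun G => ?_)
    rintro ⟨C, hC, hC2⟩
    refine (hT G (Set.mem_univ _)).2 ⟨C, hC, ?_⟩
    rw [le_div_iff₀ hρ0, mul_comm]
    exact hC2

end Pool.Agent.Results.MP_cff830_lc.FewNegationsGap
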