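import Pool.Agent.N598.VT.Main

/-!
# Read-once tensor networks approximate the vertex cover number within no constant ratio

A tree tensor network `Net K V A W` (`Pool/Agent/TH700/PA/Defs.lean`) has leaves that read one
symbol of the alphabet `A` each (with a vector in `K ^ W` for each symbol); an inner node combines
the vectors of its two children by an arbitrary bilinear map. It accepts the input `x` if a linear
form of the vector of the root is not zero. The field `K` and the weights are arbitrary, so there
may be cancellations. The tree is arbitrary and there is no bound on the number of nodes; if every
right child is a leaf then this is a matrix product (a weighted, in particular a nondeterministic,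
read-once branching program for any order of the variables, or a one-pass streaming algorithm with
`log₂ |W|` bits of memory). The bond dimension is `card W`.

The inputs are the graphs with the vertex set `Fin n`, given by their adjacency bits
(`Pair n → Bool`); `CoverLe k x` says that the graph `x` has a vertex cover with at most `k`
vertices (`Pool/Agent/N598/VT/Defs.lean`).

There is a constant `Γ` such that for all `r ≥ 1` and `n ≥ Γ r ^ 10` there is a `k ≥ 1` such that
networks which read every adjacency bit at most once, accept all graphs with a cover of at most `k`
vertices and reject all graphs without a cover of at most `r k` vertices have bond dimension at least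
`2 ^ (n / (Γ r ^ 9))`. Up to the factor `2 ^ μ` this holds also for random networks which never
accept a graph without a cover of at most `r k` vertices and accept every graph with a cover of at
most `k` vertices with probability at least `2 ^ (- μ)` (the deterministic case is `R = Unit`,
`μ = 0`). So a ratio `c < 2`, and every other constant ratio, needs exponential bond dimension.

Conversely, for all `n`, `r` and `k` some linear network over `ℚ` which reads every adjacency bit
once, with bond dimension `2 ^ (n / r + 1)`, accepts the graphs with a cover of at most `k` vertices
and rejects those without a cover of at most `r k` vertices.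

Proof: The nodes of the tree give a partition of the pairs into `t = O(r ^ 4)` parts, each of them
read between at most three nodes and containing at most a fraction `1 / t` of the pairs, up to a
constant factor. So every part has rank at most the cube of the bond dimension. A vertex is rich in
a part if more than `r k` pairs of the part contain it; since the parts are small, every vertex is
rich in `64 r ^ 2` parts on average. Take `k` random vertices for each part and the pairs of the
part which contain one of them. A cover of this mixture with at most `r k` vertices contains all
chosen vertices which are rich in their parts; by a union bound this has probability at most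
`2 ^ (- k)`. On the other hand, by the replacement lemma of `Pool/Agent/TH700/PA/Rank.lean`, among
any `t * rank + 1` accepted stars (all pairs which meet a set of `k` vertices) some mixture of
different ones is accepted. For the upper bound, guess which of `n / r + 1` blocks of `r` vertices
belong to the cover.
-/

set_option autoImplicit false

namespace Pool.Agent.Results.MP_cff830_lc.TensorNetworks

open Pool.Agent.TH700.PA Pool.Agent.N598.VT

theorem result :
    (∃ Γ : ℕ, ∀ r n : ℕ, 1 ≤ r → Γ * r ^ 10 ≤ n → ∃ k : ℕ, 1 ≤ k ∧
      ∀ (μ : ℕ) (R : Type) [Fintype R] [Nonempty R] (K W : R → Type) [∀ ω, Field (K ω)]
        [∀ ω, Fintype (W ω)] (T : ∀ ω, Net (K ω) (Pair n) Bool (W ω)) (a : ∀ ω, W ω → K ω),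
        (∀ ω e, (T ω).reads e ≤ 1) →
        (∀ ω x, ¬ CoverLe (r * k) x → (T ω).value (a ω) x = 0) →
        (∀ x, CoverLe k x →
          Nat.card R ≤ 2 ^ μ * Nat.card {ω // (T ω).value (a ω) x ≠ 0}) →
        ∃ ω, 2 ^ n ≤ (2 ^ μ * Fintype.card (W ω)) ^ (Γ * r ^ 9)) ∧
    (∀ r n k : ℕ, 1 ≤ r → 2 ≤ n →
      ∃ (T : Net ℚ (Pair n) Bool (Finset (Fin (n / r + 1))))
        (a : Finset (Fin (n / r + 1)) → ℚ),
        T.Linear ∧ (∀ e, T.reads e = 1) ∧
          (∀ x, CoverLe k x → T.value a x ≠ 0) ∧
          ∀ x, T.value a x ≠ 0 → CoverLe (r * k) x) :=
  ⟨lower, fun _ _ k hr hn => upper hr hn k⟩

end Pool.Agent.Results.MP_cff830_lc.TensorNetworks
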