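import Mathlib
import Pool.Agent.N598.TP.Defs
import Pool.Agent.N598.TP.Chain
import Pool.Agent.N598.TP.OneSided

/-! # Vertex cover with the edges divided between two players: the threshold is `2`

Two players, each of unbounded computational power, are given graphs `G` and `H` on the same `n`
vertices and want to know about the vertex covers of `G ⊔ H`, the graph with the edges of both.
Which approximation ratios can be reached when they exchange few bits?  For protocols with errors
on one side only the answer is `2`: this holds for deterministic, nondeterministic and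
co-nondeterministic protocols and for public-coin protocols with one-sided error in either
direction (any number of rounds).  Every ratio below `2` needs `Ω(n)` bits, more exactly
`Ω(n / e ^ 2)` bits for the ratios `2 - 1 / e` and `2 - 2 / (e + 1)`, while two bits suffice for
ratio `2`.  The lower bounds hold even if both graphs are matchings and the pairs of vertices are
divided between the players in advance, so that the components of `G ⊔ H` are paths with at most
two edges.  (With errors on both sides the threshold is smaller: see `exists_public` in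
`Pool.Agent.N598.TP.Public`, which is not used here.)

The three parts of the theorem:

* Part 1 (no false accepts).  For each outcome `ω` of the coins let the accepted pairs form `M`
  rectangles `A ω i × B ω i` (a protocol with `b` bits, even a nondeterministic one, has
  `M ≤ 2 ^ b`).  If all valid pairs `(G, H)` with a cover of size at most `e m` are accepted with
  probability at least `θ` and no valid pair is accepted unless it has a cover of size at most
  `(2 - 1 / e) e m`, then `M ≥ θ (4 / 3) ^ m`, for `n ≥ 12 e² m`.
* Part 2 (no false rejects).  Let now the rectangles be those of the rejected pairs.  If all valid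
  pairs without a cover of size less than `2 e m` are rejected with probability at least `θ` and
  no valid pair with a cover of size at most `(e + 1) m` is ever rejected, then
  `M² ≥ θ² (1 + 3 / (4 e)) ^ m`, for `n ≥ 6 e m`.  The ratio here is
  `2 e / (e + 1) = 2 - 2 / (e + 1)`.
* Part 3 (ratio `2`, arbitrary weights).  One rectangle contains all pairs `(G, H)` with a cover of
  weight at most `K`, and all its members have a cover of weight at most `2 K`: each player tells
  whether her own graph has a cover of weight at most `K`.

Proof of parts 1 and 2: for functions `f, g : Fin k → Fin q` let `G` have the edges from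
`(0, i, f i)` to `(1, i, f i)` and `H` those from `(0, i, g i)` to `(2, i, g i)`; the smallest cover
has `2 k` minus the number of agreements of `f` and `g` elements.  A rectangle which contains
only pairs with many agreements is small by an exponential moment (part 1), and a rectangle
without pairs with nearly `k` agreements is small by isoperimetry in the cube (part 2). -/

set_option autoImplicit false

namespace Pool.Agent.Results.MP_cff830_lc.TwoPlayers

open N598.TP

/-- **Ratio `2` is the threshold for one-sided protocols for vertex cover with two players.** -/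
theorem result :
    (∀ e : ℕ, 1 ≤ e → ∀ n m : ℕ, 12 * e ^ 2 * m ≤ n →
      ∃ S : Set (Sym2 (Fin n)), ∀ (Ω : Type) [Fintype Ω] [Nonempty Ω] (M : ℕ)
        (A B : Ω → Fin M → Set (SimpleGraph (Fin n))) (θ : ℝ), 0 ≤ θ →
        (∀ G H : SimpleGraph (Fin n), Valid S G H →
          (∃ C, IsCover (G ⊔ H) C ∧ C.card ≤ e * m) → θ ≤ frac A B G H) →
        (∀ (ω : Ω) (i : Fin M) (G H : SimpleGraph (Fin n)), Valid S G H →
          G ∈ A ω i → H ∈ B ω i → ∃ C, IsCover (G ⊔ H) C ∧ C.card ≤ (2 * e - 1) * m) →
        θ * (4 / 3) ^ m ≤ M) ∧
    (∀ e : ℕ, 1 ≤ e → ∀ n m : ℕ, 6 * e * m ≤ n →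
      ∃ S : Set (Sym2 (Fin n)), ∀ (Ω : Type) [Fintype Ω] [Nonempty Ω] (M : ℕ)
        (A B : Ω → Fin M → Set (SimpleGraph (Fin n))) (θ : ℝ), 0 ≤ θ →
        (∀ G H : SimpleGraph (Fin n), Valid S G H →
          (∀ C, IsCover (G ⊔ H) C → 2 * e * m ≤ C.card) → θ ≤ frac A B G H) →
        (∀ (ω : Ω) (i : Fin M) (G H : SimpleGraph (Fin n)), Valid S G H →
          G ∈ A ω i → H ∈ B ω i → ∀ C, IsCover (G ⊔ H) C → (e + 1) * m < C.card) →
        θ ^ 2 * (1 + 3 / (4 * (e : ℝ))) ^ m ≤ (M : ℝ) ^ 2) ∧
    (∀ (n : ℕ) (w : Fin n → ℝ), (∀ v, 0 ≤ w v) → ∀ K : ℝ,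
      ∃ A B : Set (SimpleGraph (Fin n)),
        (∀ G H : SimpleGraph (Fin n), (∃ C, IsCover (G ⊔ H) C ∧ wt w C ≤ K) → G ∈ A ∧ H ∈ B) ∧
        (∀ G H : SimpleGraph (Fin n), G ∈ A → H ∈ B →
          ∃ C, IsCover (G ⊔ H) C ∧ wt w C ≤ 2 * K)) := by
  refine ⟨fun e he n m hn => no_false_accept e he n m hn,
    fun e he n m hn => no_false_reject e he n m hn, fun n w hw K => ?_⟩
  refine ⟨{G | ∃ C, IsCover G C ∧ wt w C ≤ K}, {H | ∃ C, IsCover H C ∧ wt w C ≤ K}, ?_, ?_⟩
  · rintro G H ⟨C, hC, hK⟩
    exact ⟨⟨C, hC.left, hK⟩, ⟨C, hC.right, hK⟩⟩
  · rintro G H ⟨C, hC, hCK⟩ ⟨D, hD, hDK⟩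
    refine ⟨C ∪ D, hC.union_sup hD, ?_⟩
    have := wt_union_le hw C D
    linarith

end Pool.Agent.Results.MP_cff830_lc.TwoPlayers
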